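import Pool.Agent.H493.TM.Zeta

/-! Assembly. -/

set_option autoImplicit false

open Complex Filter Topology Set MeasureTheory
open scoped BigOperators ComplexConjugate

namespace Pool.Agent.H493.TM

open H370 H370.AS H370.A2 H295SI TH803TW Pool.Agent.H493.BS

/-- a common threshold for finitely many statements -/
lemma common {ι : Type*} [Fintype ι] {P : ι → ℝ → Prop} (h : ∀ i, ∃ T0 : ℝ, ∀ T, T0 ≤ T → P i T) :
    ∃ T0 : ℝ, ∀ T, T0 ≤ T → ∀ i, P i T := by
  have h1 : ∀ i, ∀ᶠ T in atTop, P i T := fun i => by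
    obtain ⟨T0, h0⟩ := h i
    exact eventually_atTop.2 ⟨T0, h0⟩
  have h2 := eventually_all.2 h1
  obtain ⟨T0, h0⟩ := eventually_atTop.1 h2
  exact ⟨T0, fun T hT => h0 T hT⟩

lemma sum_bound {k l : ℕ} (a : Fin k → ℂ) (b : Fin l → ℂ) (X : Fin k → Fin l → ℂ) {δ : ℝ}
    (hX : ∀ i j, ‖X i j‖ ≤ δ) :
    ‖∑ i, ∑ j, a i * b j * X i j‖ ≤ ((∑ i, ‖a i‖) * ∑ j, ‖b j‖) * δ := by
  calc ‖∑ i, ∑ j, a i * b j * X i j‖ ≤ ∑ i, ∑ j, ‖a i * b j * X i j‖ :=
        (norm_sum_le _ _).trans (Finset.sum_le_sum fun i _ => norm_sum_le _ _)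
    _ ≤ ∑ i, ∑ j, (‖a i‖ * ‖b j‖) * δ := by
        refine Finset.sum_le_sum fun i _ => Finset.sum_le_sum fun j _ => ?_
        rw [norm_mul, norm_mul]
        gcongr
        exact hX i j
    _ = _ := by
        rw [Finset.sum_mul_sum, Finset.sum_mul]
        refine Finset.sum_congr rfl fun i _ => ?_
        rw [Finset.sum_mul]

/-- **Montgomery's theorem with exponential factors in every short interval** -/
theorem main_psi (η μ ε : ℝ) (hη1 : η < 1) (hμ : 0 < μ) (hμη : μ < η) (hε : 0 < ε)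
    {k l : ℕ} (a : Fin k → ℂ) (σ : Fin k → ℝ) (b : Fin l → ℂ) (τ : Fin l → ℝ)
    {ψ : ℝ → ℝ} {K : ℝ} (hlip : ∀ x y, |ψ x - ψ y| ≤ K * |x - y|)
    (hz : ∀ x, μ ≤ |x| → ψ x = 0) :
    ∃ T0 : ℝ, ∀ T : ℝ, T0 ≤ T → ∀ H : ℝ, T ^ η ≤ H → H ≤ T / 2 → ∀ t : ℝ, T ≤ t →
      t ≤ 2 * T → ‖(∫ α in (-μ)..μ, (ψ α : ℂ) * F (expPoly a σ) (expPoly b τ) t H T α) -
        meanPQ a σ b τ * (M ψ μ : ℂ)‖ ≤ ε := by
  have hK : 0 ≤ K := by
    have h1 := hlip 1 0
    have h2 := abs_nonneg (ψ 1 - ψ 0)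
    simp at h1
    linarith
  have hψ : Continuous ψ := by
    have : LipschitzWith K.toNNReal ψ := by
      refine LipschitzWith.of_dist_le_mul fun x y => ?_
      rw [Real.dist_eq, Real.dist_eq, Real.coe_toNNReal _ hK]
      exact hlip x y
    exact this.continuous
  set S : ℝ := (∑ i, ‖a i‖) * ∑ j, ‖b j‖ with hS
  have hS0 : 0 ≤ S := by positivity
  have hpi := Real.pi_pos
  set ε1 : ℝ := ε / (2 * Real.pi * (S + 1)) with hε1
  have hε10 : 0 < ε1 := by positivity
  obtain ⟨T0, h0⟩ := common (ι := Fin k × Fin l) (P := fun ij T => 10 ≤ T ∧ ∀ H : ℝ, T ^ η ≤ H →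
      H ≤ T / 2 → ∀ t : ℝ, T ≤ t →
      t ≤ 2 * T → ‖(∫ α in (-μ)..μ, (ψ α : ℂ) * TS riemannZeta t (t + H) (σ ij.1) (τ ij.2)
        (α * Real.log T)) -
        (if σ ij.1 + τ ij.2 = 0 then ((H * Real.log T / (2 * Real.pi) * M ψ μ : ℝ) : ℂ) else 0)‖ ≤
        ε1 * (H * Real.log T)) (fun ij => by
      obtain ⟨T0, hT0, h⟩ := one_psi (σ ij.1) (τ ij.2) η μ ε1 hη1 hμ hμη hε10 hlip hz
      exact ⟨T0, fun T hT => ⟨hT0.trans hT, h T hT⟩⟩)
  refine ⟨max T0 10, fun T hT H hH1 hH2 t ht1 ht2 => ?_⟩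
  have hT10 : 10 ≤ T := (le_max_right _ _).trans hT
  have hTp : 0 < T := by linarith
  have hL : 0 < Real.log T := Real.log_pos (by linarith)
  have hH0 : 0 < H := lt_of_lt_of_le (Real.rpow_pos_of_pos hTp _) hH1
  have hN0 : 0 < H * Real.log T / (2 * Real.pi) := by positivity
  set N : ℝ := H * Real.log T / (2 * Real.pi) with hN
  have h1 := fun ij => (h0 T ((le_max_left _ _).trans hT) ij).2 H hH1 hH2 t ht1 ht2
  have hNc : (N : ℂ) ≠ 0 := by exact_mod_cast hN0.ne'
  have e1 : ∫ α in (-μ)..μ, (ψ α : ℂ) * F (expPoly a σ) (expPoly b τ) t H T α =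
      (N : ℂ)⁻¹ * ∑ i, ∑ j, a i * b j * ∫ α in (-μ)..μ, (ψ α : ℂ) *
        TS riemannZeta t (t + H) (σ i) (τ j) (α * Real.log T) := by
    have e2 : ∀ α : ℝ, (ψ α : ℂ) * F (expPoly a σ) (expPoly b τ) t H T α =
        (N : ℂ)⁻¹ * ∑ i, ∑ j, a i * b j * ((ψ α : ℂ) *
        TS riemannZeta t (t + H) (σ i) (τ j) (α * Real.log T)) := by
      intro α
      rw [F_eq a σ b τ t H T α (by linarith) hTp, mul_left_comm, Finset.mul_sum]
      congr 1
      refine Finset.sum_congr rfl fun i _ => ?_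
      rw [Finset.mul_sum]
      refine Finset.sum_congr rfl fun j _ => ?_
      ring
    simp_rw [e2]
    have hc : ∀ i j, Continuous fun α : ℝ => a i * b j * ((ψ α : ℂ) *
        TS riemannZeta t (t + H) (σ i) (τ j) (α * Real.log T)) := fun i j =>
      continuous_const.mul ((Complex.continuous_ofReal.comp hψ).mul
        (TS_cont t (t + H) _ _ (by linarith) _))
    rw [intervalIntegral.integral_const_mul, intervalIntegral.integral_finsetSum]
    · congr 1
      refine Finset.sum_congr rfl fun i _ => ?_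
      rw [intervalIntegral.integral_finsetSum]
      · refine Finset.sum_congr rfl fun j _ => ?_
        rw [intervalIntegral.integral_const_mul]
      · intro j _
        exact (hc i j).intervalIntegrable _ _
    · intro i _
      exact (continuous_finsetSum _ fun j _ => hc i j).intervalIntegrable _ _
  have e3 : meanPQ a σ b τ * (M ψ μ : ℂ) = (N : ℂ)⁻¹ * ∑ i, ∑ j, a i * b j *
      (if σ i + τ j = 0 then ((N * M ψ μ : ℝ) : ℂ) else 0) := by
    unfold meanPQ
    rw [Finset.sum_mul, Finset.mul_sum]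
    refine Finset.sum_congr rfl fun i _ => ?_
    rw [Finset.sum_mul, Finset.mul_sum]
    refine Finset.sum_congr rfl fun j _ => ?_
    split_ifs
    · push_cast
      field_simp
    · simp
  rw [e1, e3, ← mul_sub, ← Finset.sum_sub_distrib]
  have e4 : ∑ i, ((∑ j, a i * b j * ∫ α in (-μ)..μ, (ψ α : ℂ) *
        TS riemannZeta t (t + H) (σ i) (τ j) (α * Real.log T)) - ∑ j, a i * b j *
      (if σ i + τ j = 0 then ((N * M ψ μ : ℝ) : ℂ) else 0)) = ∑ i, ∑ j, a i * b j *
      ((∫ α in (-μ)..μ, (ψ α : ℂ) *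
        TS riemannZeta t (t + H) (σ i) (τ j) (α * Real.log T)) -
      (if σ i + τ j = 0 then ((N * M ψ μ : ℝ) : ℂ) else 0)) := by
    refine Finset.sum_congr rfl fun i _ => ?_
    rw [← Finset.sum_sub_distrib]
    refine Finset.sum_congr rfl fun j _ => ?_
    ring
  rw [e4, norm_mul, norm_inv, Complex.norm_real, Real.norm_of_nonneg hN0.le, inv_mul_eq_div,
    div_le_iff₀ hN0]
  refine (sum_bound a b _ fun i j => h1 (i, j)).trans ?_
  rw [← hS, hN, hε1]
  have h2 : S * (ε / (2 * Real.pi * (S + 1)) * (H * Real.log T)) =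
      (S / (S + 1)) * (ε * (H * Real.log T / (2 * Real.pi))) := by
    field_simp
  rw [h2]
  have h3 : S / (S + 1) ≤ 1 := by
    rw [div_le_one (by positivity)]
    linarith
  exact mul_le_of_le_one_left (by positivity) h3

/-- **pointwise decay of the off-diagonal factors** -/
theorem main_point (η μ δ ε : ℝ) (hη1 : η < 1) (hδ : 0 < δ) (hδμ : δ ≤ μ) (hμη : μ < η)
    (hε : 0 < ε) {k l : ℕ} (a : Fin k → ℂ) (σ : Fin k → ℝ) (b : Fin l → ℂ) (τ : Fin l → ℝ)
    (hne : ∀ i j, σ i + τ j ≠ 0) :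
    ∃ T0 : ℝ, ∀ T : ℝ, T0 ≤ T → ∀ H : ℝ, T ^ η ≤ H → H ≤ T / 2 → ∀ t : ℝ, T ≤ t →
      t ≤ 2 * T → ∀ α : ℝ, δ ≤ |α| → |α| ≤ μ →
        ‖F (expPoly a σ) (expPoly b τ) t H T α‖ ≤ ε := by
  have hle : ∀ n, ‖lamC n‖ ≤ ArithmeticFunction.vonMangoldt n := fun n => (lamC_norm n).le
  set S : ℝ := (∑ i, ‖a i‖) * ∑ j, ‖b j‖ with hS
  have hS0 : 0 ≤ S := by positivity
  have hpi := Real.pi_pos
  set ε1 : ℝ := ε / (2 * Real.pi * (S + 1)) with hε1
  have hε10 : 0 < ε1 := by positivity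
  obtain ⟨T0, h0⟩ := common (ι := Fin k × Fin l) (P := fun ij T => ∀ H : ℝ, T ^ η ≤ H →
      H ≤ T / 2 → ∀ t : ℝ, T ≤ t → t ≤ 2 * T → ∀ α : ℝ, δ ≤ |α| → |α| ≤ μ →
        ‖TS riemannZeta t (t + H) (σ ij.1) (τ ij.2) (α * Real.log T)‖ ≤ ε1 * (H * Real.log T))
      (fun ij => by
      obtain ⟨T0, hT0, h⟩ := off_point good_zeta hle ld_z (hne ij.1 ij.2) η μ δ ε1 hη1 hδ hδμ hμη
        hε10
      exact ⟨T0, h⟩)
  refine ⟨max T0 10, fun T hT H hH1 hH2 t ht1 ht2 α hα1 hα2 => ?_⟩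
  have hT10 : 10 ≤ T := (le_max_right _ _).trans hT
  have hTp : 0 < T := by linarith
  have hL : 0 < Real.log T := Real.log_pos (by linarith)
  have hH0 : 0 < H := lt_of_lt_of_le (Real.rpow_pos_of_pos hTp _) hH1
  have hN0 : 0 < H * Real.log T / (2 * Real.pi) := by positivity
  set N : ℝ := H * Real.log T / (2 * Real.pi) with hN
  have h1 := fun ij => h0 T ((le_max_left _ _).trans hT) ij H hH1 hH2 t ht1 ht2 α hα1 hα2
  rw [F_eq a σ b τ t H T α (by linarith) hTp, norm_mul, norm_inv, Complex.norm_real,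
    Real.norm_of_nonneg hN0.le, inv_mul_eq_div, div_le_iff₀ hN0]
  refine (sum_bound a b _ fun i j => h1 (i, j)).trans ?_
  rw [← hS, hN, hε1]
  have h2 : S * (ε / (2 * Real.pi * (S + 1)) * (H * Real.log T)) =
      (S / (S + 1)) * (ε * (H * Real.log T / (2 * Real.pi))) := by
    field_simp
  rw [h2]
  have h3 : S / (S + 1) ≤ 1 := by
    rw [div_le_one (by positivity)]
    linarith
  exact mul_le_of_le_one_left (by positivity) h3

/-- the mean value of an exponential -/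
lemma mean_exp (c : ℝ) : Tendsto (fun X : ℝ => (X : ℂ)⁻¹ * ∫ x in (0 : ℝ)..X, cexp (c * (x * I)))
    atTop (𝓝 (if c = 0 then 1 else 0)) := by
  by_cases hc : c = 0
  · rw [if_pos hc, hc]
    refine tendsto_const_nhds.congr' ?_
    filter_upwards [eventually_gt_atTop 0] with X hX
    have hX' : (X : ℂ) ≠ 0 := by exact_mod_cast hX.ne'
    simp [hX']
  · rw [if_neg hc]
    have hcI : (c : ℂ) * I ≠ 0 := mul_ne_zero (by exact_mod_cast hc) I_ne_zero
    have h1 : ∀ X : ℝ, ∫ x in (0 : ℝ)..X, cexp (c * (x * I)) =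
        (cexp (c * I * X) - 1) / (c * I) := by
      intro X
      have h2 := integral_exp_mul_complex (a := 0) (b := X) hcI
      simp only [Complex.ofReal_zero, mul_zero, Complex.exp_zero] at h2
      rw [← h2]
      refine intervalIntegral.integral_congr fun x _ => ?_
      show cexp (c * (x * I)) = cexp (c * I * x)
      congr 1
      ring
    refine squeeze_zero_norm' (a := fun X : ℝ => (2 / |c|) * X⁻¹) ?_ ?_
    · filter_upwards [eventually_gt_atTop 0] with X hX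
      rw [h1, norm_mul, norm_div, norm_inv, Complex.norm_real, Real.norm_of_nonneg hX.le, norm_mul,
        norm_I, mul_one, Complex.norm_real, Real.norm_eq_abs]
      have h2 : ‖cexp (c * I * X) - 1‖ ≤ 2 := by
        refine (norm_sub_le _ _).trans ?_
        have : (c : ℂ) * I * X = ((c * X : ℝ) : ℂ) * I := by push_cast; ring
        rw [this, Complex.norm_exp_ofReal_mul_I]
        norm_num
      have hc0 : 0 < |c| := abs_pos.2 hc
      rw [mul_comm]
      gcongr
    · have := tendsto_inv_atTop_zero (𝕜 := ℝ)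
      simpa using this.const_mul (2 / |c|)

/-- `meanPQ` is the mean value of `P Q` on the critical line -/
theorem mean_PQ {k l : ℕ} (a : Fin k → ℂ) (σ : Fin k → ℝ) (b : Fin l → ℂ) (τ : Fin l → ℝ) :
    Tendsto (fun X : ℝ => (X : ℂ)⁻¹ * ∫ x in (0 : ℝ)..X,
      expPoly a σ (1 / 2 + x * I) * expPoly b τ (1 / 2 + x * I)) atTop (𝓝 (meanPQ a σ b τ)) := by
  have h1 : ∀ X : ℝ, (X : ℂ)⁻¹ * ∫ x in (0 : ℝ)..X,
      expPoly a σ (1 / 2 + x * I) * expPoly b τ (1 / 2 + x * I) =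
      ∑ i, ∑ j, a i * b j * ((X : ℂ)⁻¹ * ∫ x in (0 : ℝ)..X, cexp (((σ i + τ j : ℝ) : ℂ) * (x * I))) := by
    intro X
    have e1 : ∀ x : ℝ, expPoly a σ (1 / 2 + x * I) * expPoly b τ (1 / 2 + x * I) =
        ∑ i, ∑ j, a i * b j * cexp (((σ i + τ j : ℝ) : ℂ) * (x * I)) := by
      intro x
      unfold expPoly
      rw [Finset.sum_mul_sum]
      refine Finset.sum_congr rfl fun i _ => Finset.sum_congr rfl fun j _ => ?_
      have : cexp (((σ i + τ j : ℝ) : ℂ) * (x * I)) = cexp (σ i * (1 / 2 + x * I - 1 / 2)) *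
          cexp (τ j * (1 / 2 + x * I - 1 / 2)) := by
        rw [← Complex.exp_add]
        congr 1
        push_cast
        ring
      rw [this]
      ring
    simp_rw [e1]
    have hc : ∀ i j, Continuous fun x : ℝ => a i * b j * cexp (((σ i + τ j : ℝ) : ℂ) * (x * I)) :=
      fun i j => by fun_prop
    rw [intervalIntegral.integral_finsetSum, Finset.mul_sum]
    · refine Finset.sum_congr rfl fun i _ => ?_
      rw [intervalIntegral.integral_finsetSum, Finset.mul_sum]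
      · refine Finset.sum_congr rfl fun j _ => ?_
        rw [intervalIntegral.integral_const_mul]
        ring
      · intro j _
        exact (hc i j).intervalIntegrable _ _
    · intro i _
      exact (continuous_finsetSum _ fun j _ => hc i j).intervalIntegrable _ _
  simp_rw [h1]
  unfold meanPQ
  refine tendsto_finsetSum _ fun i _ => tendsto_finsetSum _ fun j _ => ?_
  have h2 := (mean_exp (σ i + τ j)).const_mul (a i * b j)
  have h3 : (if σ i + τ j = 0 then a i * b j else 0) = a i * b j * (if σ i + τ j = 0 then 1 else 0) := by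
    split_ifs <;> simp
  rw [h3]
  exact h2

end Pool.Agent.H493.TM
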