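import Pool.Agent.H493.TM.Tw
import Pool.Graph.R_seed8.TH803.TW.VVb

/-! Pointwise bound for the off-diagonal twists. -/

set_option autoImplicit false

open Complex Filter Topology Set MeasureTheory
open scoped BigOperators ComplexConjugate

namespace Pool.Agent.H493.TM

open H370 H370.AS H370.A2 H295SI TH803TW Pool.Agent.H493.BS

section

variable {F : ℂ → ℂ} (hF : GoodL F)

variable {a : ℕ → ℂ} (ha : ∀ n, ‖a n‖ ≤ ArithmeticFunction.vonMangoldt n)
  (hld : ∀ s : ℂ, 1 < s.re → 1 ≤ s.im → deriv F s / F s = - ∑' n : ℕ, a n * (n : ℂ) ^ (-s))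

include hF ha hld in
/-- **the off-diagonal twists, pointwise** -/
theorem off_point {σ σ' : ℝ} (hσ : σ + σ' ≠ 0) (η μ δ ε : ℝ) (hη1 : η < 1) (hδ : 0 < δ)
    (hδμ : δ ≤ μ) (hμη : μ < η) (hε : 0 < ε) :
    ∃ T0 : ℝ, 10 ≤ T0 ∧ ∀ T : ℝ, T0 ≤ T → ∀ H : ℝ, T ^ η ≤ H → H ≤ T / 2 → ∀ t : ℝ, T ≤ t →
      t ≤ 2 * T → ∀ α : ℝ, δ ≤ |α| → |α| ≤ μ →
        ‖TS F t (t + H) σ σ' (α * Real.log T)‖ ≤ ε * (H * Real.log T) := by
  have hμ : 0 < μ := by linarith
  obtain ⟨h, ε1, hε1, hε1h, hh1, hr⟩ := range_ok η μ hη1 hμ hμη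
  obtain ⟨CV, hCV, hVV⟩ := VV_le
  set θ : ℝ := (σ - σ') / 2 with hθ
  set τ : ℝ := σ + σ' with hτ
  set C : ℝ := Real.exp (τ ^ 2 / 4) / Real.sqrt Real.pi with hC
  have hC0 : 0 < C := by positivity
  set η0 : ℝ := ε / (16 * C * (1 + CV)) with hη0
  have hη00 : 0 < η0 := by positivity
  obtain ⟨K, T1, hK, hT1, hJ⟩ := JT_bound hF ha hld hσ h ε1 η0 hε1 hε1h hh1 hη00
  obtain ⟨T2, hT2, hR⟩ := hr T1
  -- the Gaussian factors
  have ev1 : ∀ᶠ T : ℝ in atTop, |θ| / ((η - μ) / 4) ≤ Real.log T :=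
    Real.tendsto_log_atTop.eventually_ge_atTop _
  have ev2 : ∀ᶠ T : ℝ in atTop, |θ| / (δ / 2) ≤ Real.log T :=
    Real.tendsto_log_atTop.eventually_ge_atTop _
  have ev3 : ∀ᶠ T : ℝ in atTop, 16 * C * K / ε ≤ Real.log T :=
    Real.tendsto_log_atTop.eventually_ge_atTop _
  have ev4 : ∀ᶠ T : ℝ in atTop, (16 / (δ / 2) + 16 / (δ / 2) ^ 2) ≤ Real.log T :=
    Real.tendsto_log_atTop.eventually_ge_atTop _
  obtain ⟨T3, hT3⟩ := (ev1.and (ev2.and (ev3.and ev4))).exists_forall_of_atTop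
  refine ⟨max T2 T3, hT2.trans (le_max_left _ _), fun T hT H hH1 hH2 t ht1 ht2 α hα1 hα2 => ?_⟩
  have hTT2 : T2 ≤ T := (le_max_left _ _).trans hT
  obtain ⟨l1, l2, l3, l4⟩ := hT3 T ((le_max_right _ _).trans hT)
  obtain ⟨r1, r2, r3, r4, r5, r6, r7⟩ := hR T hTT2 H hH1 hH2 t ht1 ht2
  have hT10 : 10 ≤ T := hT2.trans hTT2
  have hTp : 0 < T := by linarith
  set L := Real.log T with hL
  have hL0 : 0 < L := by linarith
  have hU : 1 ≤ t := by linarith
  have hdd : 0 < (η - μ) / 4 := by linarith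
  rw [div_le_iff₀ hdd] at l1
  rw [div_le_iff₀ (by linarith)] at l2
  rw [div_le_iff₀ hε] at l3
  have hθ0 := abs_nonneg θ
  set u : ℝ := α * L + θ with hu
  have hua : |u| ≤ (μ + (η - μ) / 4) * L := by
    calc |u| ≤ |α * L| + |θ| := abs_add_le _ _
      _ = |α| * L + |θ| := by rw [abs_mul, abs_of_pos hL0]
      _ ≤ μ * L + L * ((η - μ) / 4) := by gcongr
      _ = _ := by ring
  have hub : δ / 2 * L ≤ |u| := by
    have h1 : |α * L| - |θ| ≤ |u| := by
      have := abs_sub_abs_le_abs_sub (α * L) (-θ)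
      rw [abs_neg, sub_neg_eq_add] at this
      exact this
    rw [abs_mul, abs_of_pos hL0] at h1
    have h2 : δ * L ≤ |α| * L := by gcongr
    linarith
  obtain ⟨q1, q2⟩ := r7 (μ + (η - μ) / 4) (by linarith) le_rfl
  have hH0 : 0 < H := (Real.rpow_pos_of_pos hTp η).trans_le hH1
  -- reduce to `|u|`
  have hJabs : JT F t (t + H) u τ = JT F t (t + H) |u| τ := by
    rcases le_total 0 u with h0 | h0
    · rw [abs_of_nonneg h0]
    · rw [abs_of_nonpos h0, JT_even hF hU]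
  have hJ1 := hJ (t - 1) r1 t (t + H) r2 r3 r4 |u| (abs_nonneg _) (hua.trans q2)
  set lt := Real.log (t - 1) with hlt
  have hlt0 : 0 ≤ lt := Real.log_nonneg (by linarith)
  have hCn : ‖cexp ((τ : ℂ) ^ 2 / 4) / (Real.sqrt Real.pi : ℂ)‖ = C := by
    rw [norm_div, Complex.norm_real, Real.norm_of_nonneg (Real.sqrt_nonneg _), hC]
    congr 1
    have : (τ : ℂ) ^ 2 / 4 = ((τ ^ 2 / 4 : ℝ) : ℂ) := by push_cast; ring
    rw [this, ← Complex.ofReal_exp, Complex.norm_real, Real.norm_of_nonneg (Real.exp_pos _).le]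
  have hx : 16 ≤ |u| ∧ L ≤ |u| ^ 2 / 16 := by
    have hd2 : 0 < δ / 2 := by linarith
    have h8 : 0 < 16 / (δ / 2) := by positivity
    have h9 : 0 < 16 / (δ / 2) ^ 2 := by positivity
    have h1 : 16 / (δ / 2) ≤ L := by linarith
    have h2 : 16 / (δ / 2) ^ 2 ≤ L := by linarith
    rw [div_le_iff₀ hd2] at h1
    rw [div_le_iff₀ (by positivity)] at h2
    constructor
    · linarith
    · have h3 : (δ / 2 * L) ^ 2 ≤ |u| ^ 2 := by gcongr
      have h4 : 16 * L ≤ (δ / 2 * L) ^ 2 := by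
        calc 16 * L ≤ (L * (δ / 2) ^ 2) * L := by gcongr
          _ = _ := by ring
      linarith
  obtain ⟨hx1, hx2⟩ := hx
  -- Gaussian bounds
  have hg1 : L ^ 2 * Real.exp (-|u| ^ 2) ≤ 1 := by
    have h1 : L ≤ Real.exp L := by linarith [Real.add_one_le_exp L]
    have h2 : L ^ 2 ≤ Real.exp (2 * L) := by
      calc L ^ 2 ≤ (Real.exp L) ^ 2 := by gcongr
        _ = _ := by rw [← Real.exp_nat_mul]; norm_num
    calc L ^ 2 * Real.exp (-|u| ^ 2) ≤ Real.exp (2 * L) * Real.exp (-|u| ^ 2) := by gcongr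
      _ = Real.exp (2 * L - |u| ^ 2) := by rw [← Real.exp_add]; congr 1
      _ ≤ 1 := by
          rw [Real.exp_le_one_iff]
          nlinarith
  have hg2 : L * Real.exp (2 * |u| - |u| ^ 2 / 2) ≤ 1 := by
    have h1 : L ≤ Real.exp L := by linarith [Real.add_one_le_exp L]
    calc L * Real.exp (2 * |u| - |u| ^ 2 / 2) ≤ Real.exp L * Real.exp (2 * |u| - |u| ^ 2 / 2) := by
          gcongr
      _ = Real.exp (L + (2 * |u| - |u| ^ 2 / 2)) := by rw [← Real.exp_add]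
      _ ≤ 1 := by
          rw [Real.exp_le_one_iff]
          nlinarith
  have hul : |u| ≤ L := by
    have : μ + (η - μ) / 4 ≤ 1 := by linarith
    calc |u| ≤ (μ + (η - μ) / 4) * L := hua
      _ ≤ 1 * L := by gcongr
      _ = L := one_mul _
  have hV : VV |u| ≤ CV * (2 * L) := (hVV |u| (abs_nonneg _)).trans (by gcongr; linarith)
  rw [TS_JT hF hU, norm_mul, hCn, hJabs]
  rw [add_sub_cancel_left] at hJ1
  have hlt2 : lt ≤ 2 * L := r5
  have b1 : H * lt ^ 2 * Real.exp (-|u| ^ 2) ≤ 4 * H := by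
    calc H * lt ^ 2 * Real.exp (-|u| ^ 2) ≤ H * (2 * L) ^ 2 * Real.exp (-|u| ^ 2) := by gcongr
      _ = 4 * H * (L ^ 2 * Real.exp (-|u| ^ 2)) := by ring
      _ ≤ 4 * H * 1 := by gcongr
      _ = _ := by ring
  have b2 : H * lt * Real.exp (2 * |u| - |u| ^ 2 / 2) ≤ 2 * H := by
    calc H * lt * Real.exp (2 * |u| - |u| ^ 2 / 2) ≤
        H * (2 * L) * Real.exp (2 * |u| - |u| ^ 2 / 2) := by gcongr
      _ = 2 * H * (L * Real.exp (2 * |u| - |u| ^ 2 / 2)) := by ring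
      _ ≤ 2 * H * 1 := by gcongr
      _ = _ := by ring
  calc C * ‖JT F t (t + H) |u| τ‖ ≤ C * (η0 * (4 * H + H * (CV * (2 * L))) + K * (2 * H + H)) := by
        gcongr
        exact hJ1.trans (by gcongr)
    _ ≤ C * (η0 * (4 * (1 + CV) * (H * L))) + (3 * C * K) * H := by
        have h1 : 4 * H + H * (CV * (2 * L)) ≤ 4 * (1 + CV) * (H * L) := by
          have : H * 1 ≤ H * L := by gcongr
          have h2 : 0 ≤ CV * (H * L) := by positivity
          nlinarith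
        have h2 : η0 * (4 * H + H * (CV * (2 * L))) ≤ η0 * (4 * (1 + CV) * (H * L)) := by gcongr
        have h3 : C * (η0 * (4 * H + H * (CV * (2 * L)))) ≤ C * (η0 * (4 * (1 + CV) * (H * L))) := by
          gcongr
        linarith
    _ ≤ ε / 4 * (H * L) + (3 * ε / 16 * L) * H := by
        have h1 : C * (η0 * (4 * (1 + CV) * (H * L))) = ε / 4 * (H * L) := by
          rw [hη0]
          field_simp
          ring
        have h2 : 3 * C * K ≤ 3 * ε / 16 * L := by linarith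
        have h3 : (3 * C * K) * H ≤ (3 * ε / 16 * L) * H := by gcongr
        linarith
    _ ≤ _ := by
        have : 0 ≤ ε * (H * L) := by positivity
        linarith

end

end Pool.Agent.H493.TM
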