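import Pool.Agent.H493.BS.Real
import Pool.Graph.R_pool_sql_team_seeded_b3bd081e.H24R3.PsiEvery

/-! Montgomery's theorem with exponential factors, in every short interval. -/

set_option autoImplicit false

open Complex Filter Topology Set MeasureTheory
open scoped BigOperators ComplexConjugate

namespace Pool.Agent.H493.TM

open H370 H370.AS H370.A2 H295SI TH803TW Pool.Agent.H493.BS

section

variable {F : ℂ → ℂ} (hF : GoodL F)

/-- the twisted pair sum -/
noncomputable def TS (F : ℂ → ℂ) (A B σ σ' u : ℝ) : ℂ :=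
  ∑ s ∈ Zf F A B, ∑ s' ∈ Zf F A B, (mult F s : ℂ) * (mult F s' : ℂ) *
    (cexp (I * σ * zz s) * cexp (I * σ' * zz s') * (cexp (I * u * (zz s - zz s')) *
      cexp (-(zz s - zz s') ^ 2 / 4)))

include hF in
lemma TS_JT {A B : ℝ} (hA : 1 ≤ A) (σ σ' u : ℝ) : TS F A B σ σ' u =
    (cexp (((σ + σ' : ℝ) : ℂ) ^ 2 / 4) / Real.sqrt Real.pi) *
      JT F A B (u + (σ - σ') / 2) (σ + σ') := by
  have hpi : (Real.sqrt Real.pi : ℂ) ≠ 0 := by
    rw [Ne, Complex.ofReal_eq_zero]; positivity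
  rw [JT_eq hF hA]
  have e0 : cexp (((σ + σ' : ℝ) : ℂ) ^ 2 / 4) * cexp (-((σ + σ' : ℝ) : ℂ) ^ 2 / 4) = 1 := by
    rw [← Complex.exp_add]
    have : ((σ + σ' : ℝ) : ℂ) ^ 2 / 4 + -((σ + σ' : ℝ) : ℂ) ^ 2 / 4 = 0 := by ring
    rw [this, Complex.exp_zero]
  have e1 : ∀ X : ℂ, (cexp (((σ + σ' : ℝ) : ℂ) ^ 2 / 4) / Real.sqrt Real.pi) *
      ((Real.sqrt Real.pi : ℂ) * cexp (-((σ + σ' : ℝ) : ℂ) ^ 2 / 4) * X) = X := by
    intro X
    have : (cexp (((σ + σ' : ℝ) : ℂ) ^ 2 / 4) / Real.sqrt Real.pi) *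
      ((Real.sqrt Real.pi : ℂ) * cexp (-((σ + σ' : ℝ) : ℂ) ^ 2 / 4) * X) =
      (cexp (((σ + σ' : ℝ) : ℂ) ^ 2 / 4) * cexp (-((σ + σ' : ℝ) : ℂ) ^ 2 / 4)) * X := by
      field_simp
    rw [this, e0, one_mul]
  rw [e1]
  unfold TS
  refine Finset.sum_congr rfl fun s _ => Finset.sum_congr rfl fun s' _ => ?_
  congr 1
  rw [← Complex.exp_add, ← Complex.exp_add, ← Complex.exp_add, ← Complex.exp_add,
    ← Complex.exp_add]
  congr 1
  push_cast
  ring

lemma int_even {f : ℝ → ℝ} (hf : Continuous f) (he : ∀ x, f (-x) = f x) (a : ℝ) :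
    ∫ x in (-a)..a, f x = 2 * ∫ x in (0 : ℝ)..a, f x := by
  rw [← intervalIntegral.integral_add_adjacent_intervals (b := 0) (hf.intervalIntegrable _ _)
    (hf.intervalIntegrable _ _)]
  have h := intervalIntegral.integral_comp_neg (a := 0) (b := a) f
  rw [neg_zero] at h
  rw [← h]
  simp only [he]
  ring

/-- the integral of the norm over a symmetric interval -/
lemma int_norm {A B : ℝ} (hF : GoodL F) (hA : 1 ≤ A) (τ L ν : ℝ) (hν : 0 < ν) :
    ∫ β in (-ν)..ν, ‖JT F A B (β * L) τ‖ = 2 * ν * ∫ α in (0 : ℝ)..1, ‖JT F A B ((ν * L) * α) τ‖ := by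
  have hc : Continuous fun β : ℝ => ‖JT F A B (β * L) τ‖ :=
    ((JT_cont hF hA τ).comp (by fun_prop)).norm
  rw [int_even hc (fun x => by rw [neg_mul, JT_even hF hA])]
  have h := intervalIntegral.mul_integral_comp_mul_left (a := 0) (b := 1) (c := ν)
    (f := fun β : ℝ => ‖JT F A B (β * L) τ‖)
  rw [mul_zero, mul_one] at h
  rw [← h, ← mul_assoc]
  congr 1
  refine intervalIntegral.integral_congr fun α _ => ?_
  show ‖JT F A B (ν * α * L) τ‖ = ‖JT F A B (ν * L * α) τ‖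
  congr 2
  ring

/-- enlarging the interval of integration -/
lemma int_enlarge {f : ℝ → ℂ} (hf : Continuous f) {μ a b : ℝ} (hμ : 0 ≤ μ)
    (hz : ∀ x, μ ≤ |x| → f x = 0) (ha : a ≤ -μ) (hb : μ ≤ b) :
    ∫ x in a..b, f x = ∫ x in (-μ)..μ, f x := by
  have h1 : ∫ x in a..(-μ), f x = 0 := by
    rw [intervalIntegral.integral_congr (g := fun _ => (0 : ℂ))]
    · simp
    · intro x hx
      rw [Set.uIcc_of_le ha] at hx
      exact hz x (le_abs.2 (Or.inr (by linarith [hx.2])))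
  have h2 : ∫ x in μ..b, f x = 0 := by
    rw [intervalIntegral.integral_congr (g := fun _ => (0 : ℂ))]
    · simp
    · intro x hx
      rw [Set.uIcc_of_le hb] at hx
      exact hz x (le_abs.2 (Or.inl hx.1))
  rw [← intervalIntegral.integral_add_adjacent_intervals (b := -μ) (hf.intervalIntegrable _ _)
    (hf.intervalIntegrable _ _), ← intervalIntegral.integral_add_adjacent_intervals (a := -μ)
    (b := μ) (c := b) (hf.intervalIntegrable _ _) (hf.intervalIntegrable _ _), h1, h2]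
  simp

variable {a : ℕ → ℂ} (ha : ∀ n, ‖a n‖ ≤ ArithmeticFunction.vonMangoldt n)
  (hld : ∀ s : ℂ, 1 < s.re → 1 ≤ s.im → deriv F s / F s = - ∑' n : ℕ, a n * (n : ℂ) ^ (-s))

/-- the range of parameters: heights `t ∈ [T, 2T]` and lengths `T ^ η ≤ H ≤ T / 2` -/
lemma range_ok (η μ : ℝ) (hη1 : η < 1) (hμ : 0 < μ) (hμη : μ < η) :
    ∃ h ε : ℝ, 0 < ε ∧ ε < h ∧ h ≤ 1 ∧ ∀ b : ℝ, ∃ T0 : ℝ, 10 ≤ T0 ∧ ∀ T : ℝ, T0 ≤ T → ∀ H : ℝ,
      T ^ η ≤ H → H ≤ T / 2 → ∀ t : ℝ, T ≤ t → t ≤ 2 * T →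
      b ≤ t - 1 ∧ (t - 1) + 1 ≤ t ∧ t + H ≤ 2 * (t - 1) - 1 ∧ (t - 1) ^ h ≤ t + H - t ∧
      Real.log (t - 1) ≤ 2 * Real.log T ∧ 1 ≤ Real.log T ∧
      (∀ ν : ℝ, μ ≤ ν → ν ≤ μ + (η - μ) / 4 → μ / 2 * Real.log (t - 1) ≤ ν * Real.log T ∧
        ν * Real.log T ≤ (h - ε) * Real.log (t - 1)) := by
  set d := η - μ with hd
  have hd0 : 0 < d := by rw [hd]; linarith
  refine ⟨μ + 3 * d / 4, d / 4, by positivity, by linarith, by linarith, fun b => ?_⟩
  have ev1 : ∀ᶠ T : ℝ in atTop, (2 : ℝ) ^ (μ + 3 * d / 4) ≤ T ^ (d / 4) :=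
    (tendsto_rpow_atTop (by positivity)).eventually_ge_atTop _
  have ev2 : ∀ᶠ T : ℝ in atTop, 4 + 4 / d ≤ Real.log T :=
    Real.tendsto_log_atTop.eventually_ge_atTop _
  obtain ⟨T1, hT1⟩ := (ev1.and ev2).exists_forall_of_atTop
  refine ⟨max (max 10 (b + 1)) T1, (le_max_left _ _).trans (le_max_left _ _),
    fun T hT H hH1 hH2 t ht1 ht2 => ?_⟩
  have hT10 : 10 ≤ T := ((le_max_left _ _).trans (le_max_left _ _)).trans hT
  have hb : b + 1 ≤ T := ((le_max_right _ _).trans (le_max_left _ _)).trans hT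
  obtain ⟨e1, e2⟩ := hT1 T ((le_max_right _ _).trans hT)
  have hTp : 0 < T := by linarith
  have hdi : 0 < 4 / d := by positivity
  have hL : 4 ≤ Real.log T := by linarith
  have hlog2 : Real.log 2 ≤ 1 := by
    have := Real.log_two_lt_d9
    linarith
  have hlt : Real.log (t - 1) ≤ Real.log T + 1 := by
    have h1 : Real.log (t - 1) ≤ Real.log (2 * T) := Real.log_le_log (by linarith) (by linarith)
    rw [Real.log_mul (by norm_num) hTp.ne'] at h1
    linarith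
  have hlt2 : Real.log T - 1 ≤ Real.log (t - 1) := by
    have h1 : T / Real.exp 1 ≤ t - 1 := by
      rw [div_le_iff₀ (Real.exp_pos _)]
      have := Real.exp_one_gt_d9
      nlinarith
    have h2 := Real.log_le_log (by positivity) h1
    rw [Real.log_div (by linarith) (Real.exp_pos 1).ne', Real.log_exp] at h2
    exact h2
  refine ⟨by linarith, by linarith, by linarith, ?_, by linarith, by linarith, fun ν hν1 hν2 => ?_⟩
  · have h1 : (t - 1) ^ (μ + 3 * d / 4) ≤ (2 * T) ^ (μ + 3 * d / 4) :=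
      Real.rpow_le_rpow (by linarith) (by linarith) (by positivity)
    have h2 : (2 * T) ^ (μ + 3 * d / 4) = 2 ^ (μ + 3 * d / 4) * T ^ (μ + 3 * d / 4) :=
      Real.mul_rpow (by norm_num) hTp.le
    have h3 : T ^ η = T ^ (d / 4) * T ^ (μ + 3 * d / 4) := by
      rw [← Real.rpow_add hTp]
      congr 1
      rw [hd]; ring
    have h4 : 0 ≤ T ^ (μ + 3 * d / 4) := (Real.rpow_pos_of_pos hTp _).le
    have h5 : 2 ^ (μ + 3 * d / 4) * T ^ (μ + 3 * d / 4) ≤ T ^ (d / 4) * T ^ (μ + 3 * d / 4) := by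
      gcongr
    rw [add_sub_cancel_left]
    linarith
  · constructor
    · have h1 : μ / 2 * Real.log (t - 1) ≤ μ / 2 * (2 * Real.log T) := by
        gcongr
        linarith
      have h2 : μ * Real.log T ≤ ν * Real.log T := by gcongr
      linarith
    · have h1 : (μ + 3 * d / 4 - d / 4) * (Real.log T - 1) ≤
          (μ + 3 * d / 4 - d / 4) * Real.log (t - 1) := by
        apply mul_le_mul_of_nonneg_left hlt2
        linarith
      have h2 : ν * Real.log T ≤ (μ + d / 4) * Real.log T := by gcongr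
      have h3 : 4 / d ≤ Real.log T := by linarith
      rw [div_le_iff₀ hd0] at h3
      have hμ1 : μ + d / 2 ≤ 1 := by rw [hd]; linarith
      nlinarith

include hF ha hld in
/-- **the off-diagonal twists** -/
theorem off_psi {σ σ' : ℝ} (hσ : σ + σ' ≠ 0) (η μ ε : ℝ) (hη1 : η < 1) (hμ : 0 < μ) (hμη : μ < η)
    (hε : 0 < ε) {ψ : ℝ → ℝ} (hψ : Continuous ψ) {D : ℝ} (hD : ∀ x, |ψ x| ≤ D) :
    ∃ T0 : ℝ, 10 ≤ T0 ∧ ∀ T : ℝ, T0 ≤ T → ∀ H : ℝ, T ^ η ≤ H → H ≤ T / 2 → ∀ t : ℝ, T ≤ t →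
      t ≤ 2 * T → ‖∫ α in (-μ)..μ, (ψ α : ℂ) * TS F t (t + H) σ σ' (α * Real.log T)‖ ≤
        ε * (H * Real.log T) := by
  obtain ⟨h, ε1, hε1, hε1h, hh1, hr⟩ := range_ok η μ hη1 hμ hμη
  set θ : ℝ := (σ - σ') / 2 with hθ
  set τ : ℝ := σ + σ' with hτ
  have hD0 : 0 ≤ D := (abs_nonneg _).trans (hD 0)
  set C : ℝ := Real.exp (τ ^ 2 / 4) / Real.sqrt Real.pi with hC
  have hC0 : 0 < C := by positivity
  set K : ℝ := C * D * (2 * 2) * 2 + 1 with hK
  have hK0 : 0 < K := by positivity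
  obtain ⟨T1, hT1, hJ⟩ := JT_int hF ha hld hσ h ε1 (μ / 2) (ε / K) hε1 hε1h hh1 (by positivity)
    (by positivity)
  obtain ⟨T2, hT2, hR⟩ := hr T1
  have ev : ∀ᶠ T : ℝ in atTop, |θ| / ((η - μ) / 4) ≤ Real.log T :=
    Real.tendsto_log_atTop.eventually_ge_atTop _
  obtain ⟨T3, hT3⟩ := ev.exists_forall_of_atTop
  refine ⟨max T2 T3, hT2.trans (le_max_left _ _), fun T hT H hH1 hH2 t ht1 ht2 => ?_⟩
  have hTT2 : T2 ≤ T := (le_max_left _ _).trans hT
  have hlog := hT3 T ((le_max_right _ _).trans hT)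
  obtain ⟨r1, r2, r3, r4, r5, r6, r7⟩ := hR T hTT2 H hH1 hH2 t ht1 ht2
  have hT10 : 10 ≤ T := hT2.trans hTT2
  have hTp : 0 < T := by linarith
  set L := Real.log T with hL
  have hL0 : 0 < L := by linarith
  have hU : 1 ≤ t := by linarith
  have hdd : 0 < (η - μ) / 4 := by linarith
  rw [div_le_iff₀ hdd] at hlog
  set ν : ℝ := μ + |θ| / L with hν
  have hθ0 := abs_nonneg θ
  have hν1 : μ ≤ ν := by rw [hν]; have : 0 ≤ |θ| / L := by positivity
                         linarith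
  have hν2 : ν ≤ μ + (η - μ) / 4 := by
    rw [hν]
    have : |θ| / L ≤ (η - μ) / 4 := by
      rw [div_le_iff₀ hL0]; linarith
    linarith
  have hν0 : 0 < ν := by linarith
  obtain ⟨q1, q2⟩ := r7 ν hν1 hν2
  have hJ1 := hJ (t - 1) r1 t (t + H) r2 r3 r4 (ν * L) q1 q2
  have hH0 : 0 < H := (Real.rpow_pos_of_pos hTp η).trans_le hH1
  -- the norm
  have hJc : Continuous fun α : ℝ => JT F t (t + H) (α * L + θ) τ :=
    (JT_cont hF hU τ).comp (by fun_prop)
  have h1 : ∀ α : ℝ, (ψ α : ℂ) * TS F t (t + H) σ σ' (α * L) =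
      (cexp ((τ : ℂ) ^ 2 / 4) / Real.sqrt Real.pi) * ((ψ α : ℂ) * JT F t (t + H) (α * L + θ) τ) := by
    intro α
    rw [TS_JT hF hU]
    ring
  have hCn : ‖cexp ((τ : ℂ) ^ 2 / 4) / (Real.sqrt Real.pi : ℂ)‖ = C := by
    rw [norm_div, Complex.norm_real, Real.norm_of_nonneg (Real.sqrt_nonneg _), hC]
    congr 1
    have : (τ : ℂ) ^ 2 / 4 = ((τ ^ 2 / 4 : ℝ) : ℂ) := by push_cast; ring
    rw [this, ← Complex.ofReal_exp, Complex.norm_real, Real.norm_of_nonneg (Real.exp_pos _).le]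
  have h2 : ‖∫ α in (-μ)..μ, (ψ α : ℂ) * JT F t (t + H) (α * L + θ) τ‖ ≤
      D * ∫ α in (-μ)..μ, ‖JT F t (t + H) (α * L + θ) τ‖ := by
    refine (intervalIntegral.norm_integral_le_integral_norm (by linarith)).trans ?_
    rw [← intervalIntegral.integral_const_mul]
    refine intervalIntegral.integral_mono_on (by linarith) ?_ ?_ ?_
    · exact (((Complex.continuous_ofReal.comp hψ).mul hJc).norm).intervalIntegrable _ _
    · exact (continuous_const.mul hJc.norm).intervalIntegrable _ _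
    · intro α _
      rw [norm_mul, Complex.norm_real, Real.norm_eq_abs]
      gcongr
      exact hD α
  have h3 : ∫ α in (-μ)..μ, ‖JT F t (t + H) (α * L + θ) τ‖ ≤
      ∫ β in (-ν)..ν, ‖JT F t (t + H) (β * L) τ‖ := by
    have e1 : ∀ α : ℝ, ‖JT F t (t + H) (α * L + θ) τ‖ =
        (fun β : ℝ => ‖JT F t (t + H) (β * L) τ‖) (α + θ / L) := by
      intro α
      show _ = ‖JT F t (t + H) ((α + θ / L) * L) τ‖
      congr 2
      field_simp
    simp_rw [e1]
    rw [intervalIntegral.integral_comp_add_right (fun β : ℝ => ‖JT F t (t + H) (β * L) τ‖) (θ / L)]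
    have hθL : |θ / L| = |θ| / L := by rw [abs_div, abs_of_pos hL0]
    have a1 := neg_abs_le (θ / L)
    have a2 := le_abs_self (θ / L)
    rw [hθL] at a1 a2
    apply intervalIntegral.integral_mono_interval (by linarith) (by linarith) (by linarith)
    · exact Eventually.of_forall fun x => norm_nonneg _
    · exact (((JT_cont hF hU τ).comp (by fun_prop : Continuous fun β : ℝ => β * L)).norm).intervalIntegrable _ _
  rw [int_norm hF hU τ L ν hν0] at h3
  simp_rw [h1]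
  rw [intervalIntegral.integral_const_mul, norm_mul, hCn]
  have hν3 : ν ≤ 2 := by linarith
  have hX0 : 0 ≤ ∫ α in (0 : ℝ)..1, ‖JT F t (t + H) (ν * L * α) τ‖ :=
    intervalIntegral.integral_nonneg (by norm_num) fun _ _ => norm_nonneg _
  have h5 : (t + H - t) * Real.log (t - 1) ≤ H * (2 * L) := by
    rw [add_sub_cancel_left]
    gcongr
  calc C * ‖∫ α in (-μ)..μ, (ψ α : ℂ) * JT F t (t + H) (α * L + θ) τ‖ ≤
      C * (D * (2 * ν * ∫ α in (0 : ℝ)..1, ‖JT F t (t + H) (ν * L * α) τ‖)) := by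
        gcongr
        exact h2.trans (by gcongr)
    _ ≤ C * (D * (2 * 2 * (ε / K * (H * (2 * L))))) := by
        gcongr
        exact hJ1.trans (by gcongr)
    _ = (C * D * (2 * 2) * 2) * (ε / K) * (H * L) := by ring
    _ ≤ K * (ε / K) * (H * L) := by
        gcongr
        rw [hK]; linarith
    _ = _ := by field_simp

include hF ha hld in
/-- **the diagonal twists** -/
theorem diag_psi (σ : ℝ) (η μ ε : ℝ) (hη1 : η < 1) (hμ : 0 < μ) (hμη : μ < η)
    (hε : 0 < ε) {ψ : ℝ → ℝ} {K : ℝ} (hlip : ∀ x y, |ψ x - ψ y| ≤ K * |x - y|)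
    (hz : ∀ x, μ ≤ |x| → ψ x = 0) :
    ∃ T0 : ℝ, 10 ≤ T0 ∧ ∀ T : ℝ, T0 ≤ T → ∀ H : ℝ, T ^ η ≤ H → H ≤ T / 2 → ∀ t : ℝ, T ≤ t →
      t ≤ 2 * T → ‖(∫ α in (-μ)..μ, (ψ α : ℂ) * TS F t (t + H) σ (-σ) (α * Real.log T)) -
        ∫ α in (-μ)..μ, (ψ α : ℂ) * TS F t (t + H) 0 0 (α * Real.log T)‖ ≤
        ε * (H * Real.log T) := by
  have hK : 0 ≤ K := by
    have h1 := hlip 1 0
    have h2 := abs_nonneg (ψ 1 - ψ 0)
    simp at h1
    linarith
  have hψ : Continuous ψ := by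
    have : LipschitzWith K.toNNReal ψ := by
      refine LipschitzWith.of_dist_le_mul fun x y => ?_
      rw [Real.dist_eq, Real.dist_eq, Real.coe_toNNReal _ hK]
      exact hlip x y
    exact this.continuous
  obtain ⟨h, ε1, hε1, hε1h, hh1, hr⟩ := range_ok η μ hη1 hμ hμη
  obtain ⟨D, T1, hD, hT1, hJ⟩ := J0_int hF ha hld h ε1 (μ / 2) hε1 hε1h hh1 (by positivity)
  obtain ⟨T2, hT2, hR⟩ := hr T1
  have hs0 := abs_nonneg σ
  have ev : ∀ᶠ T : ℝ in atTop, |σ| / ((η - μ) / 4) ≤ Real.log T ∧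
      K * |σ| * (2 * 2) * D * 2 / ε ≤ Real.log T :=
    (Real.tendsto_log_atTop.eventually_ge_atTop _).and
      (Real.tendsto_log_atTop.eventually_ge_atTop _)
  obtain ⟨T3, hT3⟩ := ev.exists_forall_of_atTop
  refine ⟨max T2 T3, hT2.trans (le_max_left _ _), fun T hT H hH1 hH2 t ht1 ht2 => ?_⟩
  have hTT2 : T2 ≤ T := (le_max_left _ _).trans hT
  obtain ⟨hlog, hlog2⟩ := hT3 T ((le_max_right _ _).trans hT)
  obtain ⟨r1, r2, r3, r4, r5, r6, r7⟩ := hR T hTT2 H hH1 hH2 t ht1 ht2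
  have hT10 : 10 ≤ T := hT2.trans hTT2
  have hTp : 0 < T := by linarith
  set L := Real.log T with hL
  have hL0 : 0 < L := by linarith
  have hU : 1 ≤ t := by linarith
  have hdd : 0 < (η - μ) / 4 := by linarith
  rw [div_le_iff₀ hdd] at hlog
  rw [div_le_iff₀ hε] at hlog2
  set ν : ℝ := μ + |σ| / L with hν
  have hν1 : μ ≤ ν := by rw [hν]; have : 0 ≤ |σ| / L := by positivity
                         linarith
  have hν2 : ν ≤ μ + (η - μ) / 4 := by
    rw [hν]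
    have : |σ| / L ≤ (η - μ) / 4 := by
      rw [div_le_iff₀ hL0]; linarith
    linarith
  have hν0 : 0 < ν := by linarith
  obtain ⟨q1, q2⟩ := r7 ν hν1 hν2
  have hJ1 := hJ (t - 1) r1 t (t + H) r2 r3 r4 (ν * L) q1 q2
  have hH0 : 0 < H := (Real.rpow_pos_of_pos hTp η).trans_le hH1
  set c0 : ℂ := cexp (((σ + -σ : ℝ) : ℂ) ^ 2 / 4) / (Real.sqrt Real.pi : ℂ) with hc0
  have hc0' : cexp (((0 + 0 : ℝ) : ℂ) ^ 2 / 4) / (Real.sqrt Real.pi : ℂ) = c0 := by
    rw [hc0]
    congr 4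
    simp
  have hcn : ‖c0‖ ≤ 1 := by
    rw [hc0, add_neg_cancel, norm_div, Complex.norm_real, Real.norm_of_nonneg (Real.sqrt_nonneg _)]
    simp only [Complex.ofReal_zero, ne_eq, OfNat.ofNat_ne_zero, not_false_eq_true, zero_pow,
      zero_div, Complex.exp_zero, norm_one, one_div]
    apply inv_le_one_of_one_le₀
    rw [Real.one_le_sqrt]
    linarith [Real.pi_gt_three]
  set θ : ℝ := (σ - -σ) / 2 with hθ
  have hθσ : θ = σ := by rw [hθ]; ring
  have e1 : ∀ α : ℝ, (ψ α : ℂ) * TS F t (t + H) σ (-σ) (α * L) =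
      c0 * ((fun β : ℝ => (ψ (β - σ / L) : ℂ) * JT F t (t + H) (β * L) 0) (α + σ / L)) := by
    intro α
    rw [TS_JT hF hU]
    show (ψ α : ℂ) * (c0 * JT F t (t + H) (α * L + θ) (σ + -σ)) =
      c0 * ((ψ (α + σ / L - σ / L) : ℂ) * JT F t (t + H) ((α + σ / L) * L) 0)
    rw [hθσ, add_neg_cancel, add_sub_cancel_right]
    have : (α + σ / L) * L = α * L + σ := by field_simp
    rw [this]
    ring
  have e2 : ∀ α : ℝ, (ψ α : ℂ) * TS F t (t + H) 0 0 (α * L) =
      c0 * ((ψ α : ℂ) * JT F t (t + H) (α * L) 0) := by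
    intro α
    rw [TS_JT hF hU, hc0', sub_zero, zero_div, add_zero, add_zero]
    ring
  simp_rw [e1, e2]
  rw [intervalIntegral.integral_const_mul, intervalIntegral.integral_const_mul, ← mul_sub]
  have hJc : Continuous fun β : ℝ => JT F t (t + H) (β * L) 0 := (JT_cont hF hU 0).comp (by fun_prop)
  have hf1 : Continuous fun β : ℝ => (ψ (β - σ / L) : ℂ) * JT F t (t + H) (β * L) 0 :=
    (Complex.continuous_ofReal.comp (hψ.comp (by fun_prop))).mul hJc
  have hf2 : Continuous fun β : ℝ => (ψ β : ℂ) * JT F t (t + H) (β * L) 0 :=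
    (Complex.continuous_ofReal.comp hψ).mul hJc
  have hσL : |σ / L| = |σ| / L := by rw [abs_div, abs_of_pos hL0]
  have a1 := neg_abs_le (σ / L)
  have a2 := le_abs_self (σ / L)
  rw [hσL] at a1 a2
  -- both integrals over `[-ν, ν]`
  have g1 : ∫ α in (-μ)..μ, (fun β : ℝ => (ψ (β - σ / L) : ℂ) * JT F t (t + H) (β * L) 0)
      (α + σ / L) = ∫ β in (-ν)..ν, (ψ (β - σ / L) : ℂ) * JT F t (t + H) (β * L) 0 := by
    rw [intervalIntegral.integral_comp_add_right
      (fun β : ℝ => (ψ (β - σ / L) : ℂ) * JT F t (t + H) (β * L) 0) (σ / L)]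
    have z1 : ∫ β in (-ν)..(-μ + σ / L), (ψ (β - σ / L) : ℂ) * JT F t (t + H) (β * L) 0 = 0 := by
      rw [intervalIntegral.integral_congr (g := fun _ => (0 : ℂ))]
      · simp
      · intro x hx
        rw [Set.uIcc_of_le (by rw [hν]; linarith)] at hx
        show (ψ (x - σ / L) : ℂ) * _ = 0
        rw [hz (x - σ / L) (le_abs.2 (Or.inr (by linarith [hx.2])))]
        simp
    have z2 : ∫ β in (μ + σ / L)..ν, (ψ (β - σ / L) : ℂ) * JT F t (t + H) (β * L) 0 = 0 := by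
      rw [intervalIntegral.integral_congr (g := fun _ => (0 : ℂ))]
      · simp
      · intro x hx
        rw [Set.uIcc_of_le (by rw [hν]; linarith)] at hx
        show (ψ (x - σ / L) : ℂ) * _ = 0
        rw [hz (x - σ / L) (le_abs.2 (Or.inl (by linarith [hx.1])))]
        simp
    rw [← intervalIntegral.integral_add_adjacent_intervals (a := -ν) (b := -μ + σ / L) (c := ν)
      (hf1.intervalIntegrable _ _) (hf1.intervalIntegrable _ _),
      ← intervalIntegral.integral_add_adjacent_intervals (a := -μ + σ / L) (b := μ + σ / L) (c := ν)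
      (hf1.intervalIntegrable _ _) (hf1.intervalIntegrable _ _), z1, z2]
    simp
  have g2 : ∫ β in (-μ)..μ, (ψ β : ℂ) * JT F t (t + H) (β * L) 0 =
      ∫ β in (-ν)..ν, (ψ β : ℂ) * JT F t (t + H) (β * L) 0 :=
    (int_enlarge hf2 hμ.le (fun x hx => by rw [hz x hx]; simp) (by linarith) (by linarith)).symm
  rw [g1, g2, ← intervalIntegral.integral_sub (hf1.intervalIntegrable _ _)
    (hf2.intervalIntegrable _ _), norm_mul]
  have h2 : ‖∫ β in (-ν)..ν, ((ψ (β - σ / L) : ℂ) * JT F t (t + H) (β * L) 0 -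
      (ψ β : ℂ) * JT F t (t + H) (β * L) 0)‖ ≤
      (K * (|σ| / L)) * ∫ β in (-ν)..ν, ‖JT F t (t + H) (β * L) 0‖ := by
    refine (intervalIntegral.norm_integral_le_integral_norm (by linarith)).trans ?_
    rw [← intervalIntegral.integral_const_mul]
    refine intervalIntegral.integral_mono_on (by linarith) ?_ ?_ ?_
    · exact ((hf1.sub hf2).norm).intervalIntegrable _ _
    · exact (continuous_const.mul hJc.norm).intervalIntegrable _ _
    · intro β _
      rw [← sub_mul, norm_mul, ← Complex.ofReal_sub, Complex.norm_real, Real.norm_eq_abs]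
      gcongr
      have := hlip (β - σ / L) β
      have e : |β - σ / L - β| = |σ| / L := by
        rw [sub_right_comm, sub_self, zero_sub, abs_neg, hσL]
      rw [e] at this
      exact this
  rw [int_norm hF hU 0 L ν hν0] at h2
  have hν3 : ν ≤ 2 := by linarith
  have hX0 : 0 ≤ ∫ α in (0 : ℝ)..1, ‖JT F t (t + H) (ν * L * α) 0‖ :=
    intervalIntegral.integral_nonneg (by norm_num) fun _ _ => norm_nonneg _
  have h5 : (t + H - t) * Real.log (t - 1) ≤ H * (2 * L) := by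
    rw [add_sub_cancel_left]
    gcongr
  calc ‖c0‖ * ‖∫ β in (-ν)..ν, ((ψ (β - σ / L) : ℂ) * JT F t (t + H) (β * L) 0 -
      (ψ β : ℂ) * JT F t (t + H) (β * L) 0)‖ ≤
      1 * ((K * (|σ| / L)) * (2 * ν * ∫ α in (0 : ℝ)..1, ‖JT F t (t + H) (ν * L * α) 0‖)) := by
        gcongr
    _ ≤ 1 * ((K * (|σ| / L)) * (2 * 2 * (D * (H * (2 * L))))) := by
        gcongr
        exact hJ1.trans (by gcongr)
    _ = (K * |σ| * (2 * 2) * D * 2) * H := by field_simp
    _ ≤ (L * ε) * H := by gcongr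
    _ = _ := by ring

end

end Pool.Agent.H493.TM
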