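import Pool.Agent.H493.TM.Point

/-! Montgomery's theorem for zeta with exponential factors. -/

set_option autoImplicit false

open Complex Filter Topology Set MeasureTheory
open scoped BigOperators ComplexConjugate

namespace Pool.Agent.H493.TM

open H370 H370.AS H370.A2 H295SI TH803TW Pool.Agent.H493.BS

/-- the exponential polynomial with coefficients `a` and frequencies `σ` -/
noncomputable def expPoly {n : ℕ} (a : Fin n → ℂ) (σ : Fin n → ℝ) (s : ℂ) : ℂ :=
  ∑ j, a j * cexp (σ j * (s - 1 / 2))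

/-- the mean value of the product of two exponential polynomials -/
noncomputable def meanPQ {k l : ℕ} (a : Fin k → ℂ) (σ : Fin k → ℝ) (b : Fin l → ℂ)
    (τ : Fin l → ℝ) : ℂ := ∑ i, ∑ j, if σ i + τ j = 0 then a i * b j else 0

/-- the zeros with ordinate in `(a, b]` -/
def zeros (a b : ℝ) : Set ℂ :=
  {s : ℂ | riemannZeta s = 0 ∧ 0 < s.re ∧ s.re < 1 ∧ a < s.im ∧ s.im ≤ b}

/-- the multiplicity of a zero -/
noncomputable def m (s : ℂ) : ℂ := (analyticOrderNatAt riemannZeta s : ℂ)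

/-- the pair correlation function of the zeros with ordinate in `(t, t + H]` with factors `P`, `Q` -/
noncomputable def F (P Q : ℂ → ℂ) (t H T α : ℝ) : ℂ :=
  ((H * Real.log T / (2 * Real.pi) : ℝ) : ℂ)⁻¹ * ∑ᶠ s ∈ zeros t (t + H), ∑ᶠ s' ∈ zeros t (t + H),
    m s * m s' * (P s * Q s' * ((T : ℂ) ^ ((α : ℂ) * (s - s')) * cexp ((s - s') ^ 2 / 4)))

/-- the main term -/
noncomputable def M (ψ : ℝ → ℝ) (μ : ℝ) : ℝ := ψ 0 + ∫ α in (-μ)..μ, |α| * ψ α

lemma zeros_eq (T₁ T₂ : ℝ) : zeros T₁ T₂ = H370.zset riemannZeta T₁ T₂ := by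
  ext s
  simp only [zeros, H370.zset, Set.mem_ofPred_eq]
  tauto

theorem zeros_finite (T₁ T₂ : ℝ) (h : 0 < T₁) : (zeros T₁ T₂).Finite := by
  rw [zeros_eq]
  exact H370.zset_finite' H370.good_zeta T₁ T₂ h

lemma ld_z : ∀ s : ℂ, 1 < s.re → 1 ≤ s.im →
    deriv riemannZeta s / riemannZeta s = - ∑' n : ℕ, lamC n * (n : ℂ) ^ (-s) :=
  fun s hs _ => ld_zeta s hs

lemma F_eq {k l : ℕ} (a : Fin k → ℂ) (σ : Fin k → ℝ) (b : Fin l → ℂ) (τ : Fin l → ℝ)
    (t H T α : ℝ) (ht : 1 ≤ t) (hT : 0 < T) :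
    F (expPoly a σ) (expPoly b τ) t H T α = ((H * Real.log T / (2 * Real.pi) : ℝ) : ℂ)⁻¹ *
      ∑ i, ∑ j, a i * b j * TS riemannZeta t (t + H) (σ i) (τ j) (α * Real.log T) := by
  have hT' : (T : ℂ) ≠ 0 := by exact_mod_cast hT.ne'
  unfold F
  rw [zeros_eq, H370.finsum_Zf H370.good_zeta ht]
  congr 1
  have e0 : ∀ s s' : ℂ, m s * m s' * (expPoly a σ s * expPoly b τ s' *
      ((T : ℂ) ^ ((α : ℂ) * (s - s')) * cexp ((s - s') ^ 2 / 4))) =
      ∑ i, ∑ j, a i * b j * ((mult riemannZeta s : ℂ) * (mult riemannZeta s' : ℂ) *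
        (cexp (I * σ i * zz s) * cexp (I * τ j * zz s') *
        (cexp (I * ((α * Real.log T : ℝ) : ℂ) * (zz s - zz s')) *
          cexp (-(zz s - zz s') ^ 2 / 4)))) := by
    intro s s'
    have e1 : (T : ℂ) ^ ((α : ℂ) * (s - s')) = cexp (I * ((α * Real.log T : ℝ) : ℂ) *
        (H370.zz s - H370.zz s')) := by
      rw [Complex.cpow_def_of_ne_zero hT', ← Complex.ofReal_log hT.le]
      congr 1
      unfold H370.zz
      push_cast
      linear_combination ((Real.log T : ℂ) * α * (s - s')) * I_sq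
    have e2 : (s - s') ^ 2 / 4 = -(H370.zz s - H370.zz s') ^ 2 / 4 := by
      unfold H370.zz
      linear_combination ((s - s') ^ 2 / 4) * I_sq
    have e3 : ∀ (c : ℝ) (z : ℂ), cexp (c * (z - 1 / 2)) = cexp (I * c * zz z) := by
      intro c z
      congr 1
      unfold H370.zz
      linear_combination (c * (z - 1 / 2)) * I_sq
    rw [e1, e2]
    unfold expPoly
    rw [Finset.sum_mul_sum, Finset.sum_mul, Finset.mul_sum]
    refine Finset.sum_congr rfl fun i _ => ?_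
    rw [Finset.sum_mul, Finset.mul_sum]
    refine Finset.sum_congr rfl fun j _ => ?_
    rw [e3, e3]
    show (mult riemannZeta s : ℂ) * (mult riemannZeta s' : ℂ) * _ = _
    ring
  have e4 : ∀ s : ℂ, ∑ᶠ s' ∈ zset riemannZeta t (t + H), m s * m s' * (expPoly a σ s *
      expPoly b τ s' * ((T : ℂ) ^ ((α : ℂ) * (s - s')) * cexp ((s - s') ^ 2 / 4))) =
      ∑ s' ∈ Zf riemannZeta t (t + H), ∑ i, ∑ j, a i * b j *
        ((mult riemannZeta s : ℂ) * (mult riemannZeta s' : ℂ) *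
        (cexp (I * σ i * zz s) * cexp (I * τ j * zz s') *
        (cexp (I * ((α * Real.log T : ℝ) : ℂ) * (zz s - zz s')) *
          cexp (-(zz s - zz s') ^ 2 / 4)))) := by
    intro s
    rw [H370.finsum_Zf H370.good_zeta ht]
    exact Finset.sum_congr rfl fun s' _ => e0 s s'
  rw [Finset.sum_congr rfl fun s _ => e4 s]
  simp_rw [TS, Finset.mul_sum]
  rw [Finset.sum_congr rfl fun s _ => Finset.sum_comm]
  rw [Finset.sum_comm]
  refine Finset.sum_congr rfl fun i _ => ?_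
  rw [Finset.sum_congr rfl fun s _ => Finset.sum_comm]
  rw [Finset.sum_comm]

lemma TS_cont (A B σ σ' : ℝ) (hA : 1 ≤ A) (c : ℝ) :
    Continuous fun α : ℝ => TS riemannZeta A B σ σ' (α * c) := by
  have : (fun α : ℝ => TS riemannZeta A B σ σ' (α * c)) = fun α : ℝ =>
      (cexp (((σ + σ' : ℝ) : ℂ) ^ 2 / 4) / Real.sqrt Real.pi) *
      JT riemannZeta A B (α * c + (σ - σ') / 2) (σ + σ') := by
    funext α
    rw [TS_JT good_zeta hA]
  rw [this]
  exact continuous_const.mul ((JT_cont good_zeta hA _).comp (by fun_prop))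

/-- one pair of frequencies -/
theorem one_psi (σ σ' : ℝ) (η μ ε : ℝ) (hη1 : η < 1) (hμ : 0 < μ) (hμη : μ < η)
    (hε : 0 < ε) {ψ : ℝ → ℝ} {K : ℝ} (hlip : ∀ x y, |ψ x - ψ y| ≤ K * |x - y|)
    (hz : ∀ x, μ ≤ |x| → ψ x = 0) :
    ∃ T0 : ℝ, 10 ≤ T0 ∧ ∀ T : ℝ, T0 ≤ T → ∀ H : ℝ, T ^ η ≤ H → H ≤ T / 2 → ∀ t : ℝ, T ≤ t →
      t ≤ 2 * T → ‖(∫ α in (-μ)..μ, (ψ α : ℂ) * TS riemannZeta t (t + H) σ σ' (α * Real.log T)) -
        (if σ + σ' = 0 then ((H * Real.log T / (2 * Real.pi) * M ψ μ : ℝ) : ℂ) else 0)‖ ≤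
        ε * (H * Real.log T) := by
  have hK : 0 ≤ K := by
    have h1 := hlip 1 0
    have h2 := abs_nonneg (ψ 1 - ψ 0)
    simp at h1
    linarith
  have hψ : Continuous ψ := by
    have : LipschitzWith K.toNNReal ψ := by
      refine LipschitzWith.of_dist_le_mul fun x y => ?_
      rw [Real.dist_eq, Real.dist_eq, Real.coe_toNNReal _ hK]
      exact hlip x y
    exact this.continuous
  have hle : ∀ n, ‖lamC n‖ ≤ ArithmeticFunction.vonMangoldt n := fun n => (lamC_norm n).le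
  by_cases h0 : σ + σ' = 0
  · have hs' : σ' = -σ := by linarith
    obtain ⟨T1, hT1, g1⟩ := diag_psi good_zeta hle ld_z σ η μ (ε / 2) hη1 hμ hμη (by positivity)
      hlip hz
    obtain ⟨T2, hT2, g2⟩ := Pool.Agent.H24R3.PairEvery.every_psi H370.good_zeta H370.A2.lamC_norm
      ld_z η μ (ε / 2) hη1 hμ hμη (by positivity) ψ K hlip hz
    refine ⟨max T1 T2, hT1.trans (le_max_left _ _), fun T hT H hH1 hH2 t ht1 ht2 => ?_⟩
    have k1 := g1 T ((le_max_left _ _).trans hT) H hH1 hH2 t ht1 ht2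
    obtain ⟨-, k2⟩ := g2 T ((le_max_right _ _).trans hT) H hH1 hH2 t ht1 ht2
    have hT10 : 10 ≤ T := hT1.trans ((le_max_left _ _).trans hT)
    have hTp : 0 < T := by linarith
    have hL : 0 < Real.log T := Real.log_pos (by linarith)
    have hH0 : 0 < H := lt_of_lt_of_le (Real.rpow_pos_of_pos hTp _) hH1
    rw [if_pos h0, hs']
    have e1 : ∫ α in (-μ)..μ, (ψ α : ℂ) * TS riemannZeta t (t + H) 0 0 (α * Real.log T) =
        ((∫ α in (-μ)..μ, ψ α * JN riemannZeta t (t + H) (α * Real.log T) : ℝ) : ℂ) := by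
      rw [← intervalIntegral.integral_ofReal]
      refine intervalIntegral.integral_congr fun α _ => ?_
      show (ψ α : ℂ) * TS riemannZeta t (t + H) 0 0 (α * Real.log T) =
        ((ψ α * JN riemannZeta t (t + H) (α * Real.log T) : ℝ) : ℂ)
      rw [TS_JT good_zeta (by linarith), sub_zero, zero_div, add_zero, add_zero, JT_zero]
      unfold JN
      push_cast
      simp only [ne_eq, OfNat.ofNat_ne_zero, not_false_eq_true, zero_pow, zero_div,
        Complex.exp_zero]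
      ring
    rw [e1] at k1
    have k3 : ‖((∫ α in (-μ)..μ, ψ α * JN riemannZeta t (t + H) (α * Real.log T) : ℝ) : ℂ) -
        ((H * Real.log T / (2 * Real.pi) * M ψ μ : ℝ) : ℂ)‖ ≤ ε / 2 * (H * Real.log T) := by
      rw [← Complex.ofReal_sub, Complex.norm_real, Real.norm_eq_abs]
      refine k2.trans ?_
      gcongr
      apply div_le_self (by positivity)
      linarith [Real.pi_gt_three]
    calc _ ≤ ‖(∫ α in (-μ)..μ, (ψ α : ℂ) * TS riemannZeta t (t + H) σ (-σ) (α * Real.log T)) -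
          ((∫ α in (-μ)..μ, ψ α * JN riemannZeta t (t + H) (α * Real.log T) : ℝ) : ℂ)‖ +
        ‖((∫ α in (-μ)..μ, ψ α * JN riemannZeta t (t + H) (α * Real.log T) : ℝ) : ℂ) -
          ((H * Real.log T / (2 * Real.pi) * M ψ μ : ℝ) : ℂ)‖ := norm_sub_le_norm_sub_add_norm_sub _ _ _
      _ ≤ ε / 2 * (H * Real.log T) + ε / 2 * (H * Real.log T) := add_le_add k1 k3
      _ = _ := by ring
  · obtain ⟨D, hD⟩ : ∃ D : ℝ, ∀ x, |ψ x| ≤ D := by
      refine ⟨K * (2 * μ), fun x => ?_⟩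
      by_cases hx : μ ≤ |x|
      · rw [hz x hx, abs_zero]; positivity
      · have h1 := hlip x μ
        rw [hz μ (by rw [abs_of_pos hμ]), sub_zero] at h1
        refine h1.trans ?_
        gcongr
        have h2 := abs_sub x μ
        rw [abs_of_pos hμ] at h2
        push Not at hx
        linarith
    obtain ⟨T1, hT1, g1⟩ := off_psi good_zeta hle ld_z h0 η μ ε hη1 hμ hμη hε hψ hD
    refine ⟨T1, hT1, fun T hT H hH1 hH2 t ht1 ht2 => ?_⟩
    rw [if_neg h0, sub_zero]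
    exact g1 T hT H hH1 hH2 t ht1 ht2

end Pool.Agent.H493.TM
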